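import Pool.Agent.Helper32.CL.St4

/-!
# Project CL, module AC (MP_b2fa09_gt): the factor `Y⁴/(Y⁴+δ⁴)`
-/

set_option autoImplicit false

namespace Pool.Agent.Helper80.CL

open Helper32.CL Helper35.PI Helper35.PI2
open scoped ContDiff Manifold Topology ENNReal BigOperators
open MeasureTheory Set Filter

section Calc

variable {E : Type} [NormedAddCommGroup E] [NormedSpace ℝ E]

theorem ac_d1 {φ r ψ : E → ℝ} {x : E} (h : φ =ᶠ[𝓝 x] fun y => r y * ψ y)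
    (hr : DifferentiableAt ℝ r x) (hψ : DifferentiableAt ℝ ψ x) (w : E) :
    fderiv ℝ φ x w = r x * fderiv ℝ ψ x w + ψ x * fderiv ℝ r x w := by
  rw [h.fderiv_eq, fderiv_fun_mul hr hψ]
  simp

theorem ac_d2 {φ r ψ : E → ℝ} {x : E} (h : φ =ᶠ[𝓝 x] fun y => r y * ψ y)
    (hr : ContDiffAt ℝ 2 r x) (hψ : ContDiffAt ℝ 2 ψ x) (w : E) :
    fderiv ℝ (fun y => fderiv ℝ φ y w) x w = r x * fderiv ℝ (fun y => fderiv ℝ ψ y w) x w
      + 2 * (fderiv ℝ r x w * fderiv ℝ ψ x w) + ψ x * fderiv ℝ (fun y => fderiv ℝ r y w) x w := by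
  have h1 : (fun y => fderiv ℝ φ y w) =ᶠ[𝓝 x]
      fun y => r y * fderiv ℝ ψ y w + ψ y * fderiv ℝ r y w := by
    filter_upwards [h.eventuallyEq_nhds, hr.eventually (by simp), hψ.eventually (by simp)]
      with y h2 h3 h4
    exact ac_d1 h2 (h3.differentiableAt (by simp)) (h4.differentiableAt (by simp)) w
  have hdr : DifferentiableAt ℝ (fun y => fderiv ℝ r y w) x :=
    ((hr.fderiv_right (m := 1) (by norm_num)).differentiableAt (by simp)).clm_apply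
      (differentiableAt_const w)
  have hdψ : DifferentiableAt ℝ (fun y => fderiv ℝ ψ y w) x :=
    ((hψ.fderiv_right (m := 1) (by norm_num)).differentiableAt (by simp)).clm_apply
      (differentiableAt_const w)
  have hr1 := hr.differentiableAt (by simp)
  have hψ1 := hψ.differentiableAt (by simp)
  have hA : DifferentiableAt ℝ (fun y => r y * fderiv ℝ ψ y w) x := hr1.mul hdψ
  have hB : DifferentiableAt ℝ (fun y => ψ y * fderiv ℝ r y w) x := hψ1.mul hdr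
  rw [h1.fderiv_eq, fderiv_fun_add hA hB, fderiv_fun_mul hr1 hdψ, fderiv_fun_mul hψ1 hdr]
  simp only [ContinuousLinearMap.add_apply, ContinuousLinearMap.smul_apply, smul_eq_mul]
  ring

theorem ac_L1 {ρ : ℝ → ℝ} {ρ' : ℝ} (L : E →L[ℝ] ℝ) (x w : E) (h : HasDerivAt ρ ρ' (L x)) :
    fderiv ℝ (fun y => ρ (L y)) x w = ρ' * L w := by
  have h1 : HasFDerivAt (fun y => ρ (L y)) (ρ' • L) x := h.comp_hasFDerivAt x L.hasFDerivAt
  rw [h1.fderiv]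
  simp

end Calc

/-! ### The cut-off factor -/

/-- the factor -/
noncomputable def rh (δ y : ℝ) : ℝ := y ^ 4 / (y ^ 4 + δ ^ 4)
/-- its derivative -/
noncomputable def rh1 (δ y : ℝ) : ℝ := 4 * y ^ 3 * δ ^ 4 / (y ^ 4 + δ ^ 4) ^ 2
/-- its second derivative -/
noncomputable def rh2 (δ y : ℝ) : ℝ :=
  δ ^ 4 * (12 * y ^ 2 * δ ^ 4 - 20 * y ^ 6) / (y ^ 4 + δ ^ 4) ^ 3

theorem den_pos {δ : ℝ} (hδ : 0 < δ) (y : ℝ) : 0 < y ^ 4 + δ ^ 4 := by positivity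

theorem rh_d1 {δ : ℝ} (hδ : 0 < δ) (y : ℝ) : HasDerivAt (rh δ) (rh1 δ y) y := by
  have hp := den_pos hδ y
  have h1 : HasDerivAt (fun y : ℝ => y ^ 4) (4 * y ^ 3) y := by
    simpa using hasDerivAt_pow 4 y
  have h2 := h1.div (h1.add_const (δ ^ 4)) hp.ne'
  refine h2.congr_deriv ?_
  unfold rh1
  field_simp
  ring

theorem rh_d2 {δ : ℝ} (hδ : 0 < δ) (y : ℝ) : HasDerivAt (rh1 δ) (rh2 δ y) y := by
  have hp := den_pos hδ y
  have h1 : HasDerivAt (fun y : ℝ => y ^ 4) (4 * y ^ 3) y := by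
    simpa using hasDerivAt_pow 4 y
  have h3 : HasDerivAt (fun y : ℝ => 4 * y ^ 3 * δ ^ 4) (4 * (3 * y ^ 2) * δ ^ 4) y := by
    have := ((hasDerivAt_pow 3 y).const_mul 4).mul_const (δ ^ 4)
    simpa using this
  have h4 : HasDerivAt (fun y : ℝ => (y ^ 4 + δ ^ 4) ^ 2)
      (2 * (y ^ 4 + δ ^ 4) * (4 * y ^ 3)) y := by
    have := (h1.add_const (δ ^ 4)).fun_pow 2
    simpa using this
  have h2 := h3.div h4 (by positivity)
  refine h2.congr_deriv ?_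
  unfold rh2
  field_simp
  ring

theorem rh_deriv {δ : ℝ} (hδ : 0 < δ) : deriv (rh δ) = rh1 δ :=
  funext fun y => (rh_d1 hδ y).deriv

theorem rh_smooth {δ : ℝ} (hδ : 0 < δ) : ContDiff ℝ 2 (rh δ) := by
  unfold rh
  refine ContDiff.div (by fun_prop) (by fun_prop) fun y => (den_pos hδ y).ne'

theorem rh1_val {δ y : ℝ} (hδ : 0 < δ) (hy : 0 < y) :
    rh1 δ y = 4 / y * (rh δ y * (1 - rh δ y)) := by
  have hp := den_pos hδ y
  unfold rh1 rh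
  field_simp
  ring

theorem rh2_val {δ y : ℝ} (hδ : 0 < δ) (hy : 0 < y) :
    rh2 δ y = 4 / y ^ 2 * (rh δ y * (1 - rh δ y)) * (3 - 8 * rh δ y) := by
  have hp := den_pos hδ y
  unfold rh2 rh
  field_simp
  ring

theorem rh_mem {δ : ℝ} (hδ : 0 < δ) (y : ℝ) : 0 ≤ rh δ y ∧ rh δ y ≤ 1 := by
  have hp := den_pos hδ y
  unfold rh
  refine ⟨by positivity, ?_⟩
  rw [div_le_one hp]
  have : 0 < δ ^ 4 := by positivity
  linarith

/-! ### The functions of the certificate -/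

theorem fD_eq {δ : ℝ} (hδ : 0 < δ) {p : ℝ × ℝ × ℝ} (hp : 0 < p.2.1) :
    fD δ p = rh δ p.2.1 * fD 0 p := by
  have := den_pos hδ p.2.1
  unfold fD rh dn
  field_simp
  ring

theorem a1D_eq {δ : ℝ} (hδ : 0 < δ) {p : ℝ × ℝ × ℝ} (hp : 0 < p.2.1) :
    a1D δ p = rh δ p.2.1 * a1D 0 p := by
  have := den_pos hδ p.2.1
  unfold a1D rh dn
  field_simp
  ring

theorem a3D_eq {δ : ℝ} (hδ : 0 < δ) {p : ℝ × ℝ × ℝ} (hp : 0 < p.2.1) :
    a3D δ p = rh δ p.2.1 * a3D 0 p := by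
  have := den_pos hδ p.2.1
  unfold a3D rh dn
  field_simp
  ring

theorem a2D_eq {δ : ℝ} (hδ : 0 < δ) {p : ℝ × ℝ × ℝ} (hp : 0 < p.2.1) :
    a2D δ p = rh δ p.2.1 * a2D 0 p := by
  have := den_pos hδ p.2.1
  unfold a2D
  rw [fD_eq hδ hp]
  unfold rh dn
  field_simp
  ring

theorem fD0_smooth {p : ℝ × ℝ × ℝ} (hp : 0 < p.2.1) : ContDiffAt ℝ 2 (fD 0) p := by
  unfold fD dn rp mp
  refine ContDiffAt.div (by fun_prop) (by fun_prop) ?_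
  positivity

theorem a1D0_smooth {p : ℝ × ℝ × ℝ} (hp : 0 < p.2.1) : ContDiffAt ℝ 2 (a1D 0) p := by
  unfold a1D dn rp mp
  refine ContDiffAt.div (by fun_prop) (by fun_prop) ?_
  positivity

theorem a3D0_smooth {p : ℝ × ℝ × ℝ} (hp : 0 < p.2.1) : ContDiffAt ℝ 2 (a3D 0) p := by
  unfold a3D dn mp
  refine ContDiffAt.div (by fun_prop) (by fun_prop) ?_
  positivity

theorem a2D0_smooth {p : ℝ × ℝ × ℝ} (hp : 0 < p.2.1) : ContDiffAt ℝ 2 (a2D 0) p := by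
  unfold a2D
  refine ContDiffAt.add ?_ (fD0_smooth hp)
  unfold dn rp mp
  refine ContDiffAt.div (by fun_prop) (by fun_prop) ?_
  positivity


/-! ### Derivatives of the functions of the certificate -/

/-- second coordinate -/
noncomputable def L3 : (ℝ × ℝ × ℝ) →L[ℝ] ℝ :=
  (ContinuousLinearMap.fst ℝ ℝ ℝ).comp (ContinuousLinearMap.snd ℝ ℝ (ℝ × ℝ))

/-- second coordinate -/
noncomputable def L4 : (ℝ × ℝ × ℝ × ℝ) →L[ℝ] ℝ :=
  (ContinuousLinearMap.fst ℝ ℝ (ℝ × ℝ)).comp (ContinuousLinearMap.snd ℝ ℝ (ℝ × ℝ × ℝ))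

theorem L3_apply (p : ℝ × ℝ × ℝ) : L3 p = p.2.1 := rfl

theorem L4_apply (p : ℝ × ℝ × ℝ × ℝ) : L4 p = p.2.1 := rfl

theorem ev3 {p : ℝ × ℝ × ℝ} (hp : 0 < p.2.1) : ∀ᶠ q in 𝓝 p, 0 < q.2.1 :=
  (show Continuous fun q : ℝ × ℝ × ℝ => q.2.1 by fun_prop).continuousAt.eventually
    (lt_mem_nhds hp)

theorem ev4 {p : ℝ × ℝ × ℝ × ℝ} (hp : 0 < p.2.1) : ∀ᶠ q in 𝓝 p, 0 < q.2.1 :=
  (show Continuous fun q : ℝ × ℝ × ℝ × ℝ => q.2.1 by fun_prop).continuousAt.eventually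
    (lt_mem_nhds hp)

/-- derivative of one of the coefficient functions -/
theorem a_d1 {δ : ℝ} (hδ : 0 < δ) {a a0 : ℝ × ℝ × ℝ → ℝ}
    (h : ∀ p : ℝ × ℝ × ℝ, 0 < p.2.1 → a p = rh δ p.2.1 * a0 p) {p : ℝ × ℝ × ℝ} (hp : 0 < p.2.1)
    (h0 : ContDiffAt ℝ 2 a0 p) (w : ℝ × ℝ × ℝ) :
    fderiv ℝ a p w = rh δ p.2.1 * fderiv ℝ a0 p w + a0 p * (rh1 δ p.2.1 * w.2.1) := by
  have h1 : a =ᶠ[𝓝 p] fun q => rh δ (L3 q) * a0 q := by
    filter_upwards [ev3 hp] with q hq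
    exact h q hq
  have h2 : DifferentiableAt ℝ (fun q => rh δ (L3 q)) p :=
    ((rh_d1 hδ (L3 p)).comp_hasFDerivAt p L3.hasFDerivAt).differentiableAt
  rw [ac_d1 h1 h2 (h0.differentiableAt (by simp)) w, ac_L1 L3 p w (rh_d1 hδ (L3 p))]
  rfl

/-- the function `φ` of the certificate -/
noncomputable def ph (δ : ℝ) (p : ℝ × ℝ × ℝ × ℝ) : ℝ := fD δ (p.1, p.2.1, p.2.2.1)

theorem ph_smooth {p : ℝ × ℝ × ℝ × ℝ} (hp : 0 < p.2.1) : ContDiffAt ℝ 2 (ph 0) p := by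
  have h1 : ContDiffAt ℝ 2 (fun p : ℝ × ℝ × ℝ × ℝ => (p.1, p.2.1, p.2.2.1)) p := by fun_prop
  exact ContDiffAt.comp p (g := fD 0) (fD0_smooth (p := (p.1, p.2.1, p.2.2.1)) hp) h1

theorem ph_ev {δ : ℝ} (hδ : 0 < δ) {p : ℝ × ℝ × ℝ × ℝ} (hp : 0 < p.2.1) :
    ph δ =ᶠ[𝓝 p] fun q => rh δ (L4 q) * ph 0 q := by
  filter_upwards [ev4 hp] with q hq
  exact fD_eq hδ (p := (q.1, q.2.1, q.2.2.1)) hq

theorem rL4_smooth {δ : ℝ} (hδ : 0 < δ) (p : ℝ × ℝ × ℝ × ℝ) :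
    ContDiffAt ℝ 2 (fun q => rh δ (L4 q)) p :=
  ((rh_smooth hδ).comp L4.contDiff).contDiffAt

theorem ph_d1 {δ : ℝ} (hδ : 0 < δ) {p : ℝ × ℝ × ℝ × ℝ} (hp : 0 < p.2.1) (w : ℝ × ℝ × ℝ × ℝ) :
    fderiv ℝ (ph δ) p w = rh δ p.2.1 * fderiv ℝ (ph 0) p w + ph 0 p * (rh1 δ p.2.1 * w.2.1) := by
  rw [ac_d1 (ph_ev hδ hp) ((rL4_smooth hδ p).differentiableAt (by simp))
    ((ph_smooth hp).differentiableAt (by simp)) w, ac_L1 L4 p w (rh_d1 hδ (L4 p))]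
  rfl

theorem ph_d2 {δ : ℝ} (hδ : 0 < δ) {p : ℝ × ℝ × ℝ × ℝ} (hp : 0 < p.2.1) (w : ℝ × ℝ × ℝ × ℝ) :
    fderiv ℝ (fun y => fderiv ℝ (ph δ) y w) p w =
      rh δ p.2.1 * fderiv ℝ (fun y => fderiv ℝ (ph 0) y w) p w
        + 2 * (rh1 δ p.2.1 * w.2.1 * fderiv ℝ (ph 0) p w)
        + ph 0 p * (rh2 δ p.2.1 * w.2.1 ^ 2) := by
  have h1 : (fun y => fderiv ℝ (fun q => rh δ (L4 q)) y w) = fun y => rh1 δ (L4 y) * w.2.1 := by
    funext y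
    rw [ac_L1 L4 y w (rh_d1 hδ (L4 y))]
    rfl
  have h2 : fderiv ℝ (fun y => rh1 δ (L4 y) * w.2.1) p w = rh2 δ p.2.1 * w.2.1 ^ 2 := by
    have h3 : HasFDerivAt (fun y => rh1 δ (L4 y)) (rh2 δ (L4 p) • L4) p :=
      (rh_d2 hδ (L4 p)).comp_hasFDerivAt p L4.hasFDerivAt
    rw [fderiv_mul_const h3.differentiableAt, h3.fderiv]
    simp only [ContinuousLinearMap.smul_apply, smul_eq_mul, L4_apply]
    ring
  rw [ac_d2 (ph_ev hδ hp) (rL4_smooth hδ p) (ph_smooth hp) w, h1, h2,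
    ac_L1 L4 p w (rh_d1 hδ (L4 p))]
  rfl

/-! ### The integrand -/

section Main

variable {N : ℕ}

theorem ac_Na {δ : ℝ} (hδ : 0 < δ) (A : Fin 2 → Fin 2 → EE N) (hY : 0 < YY A) :
    Na (cD δ) A = rh δ (YY A) • Na (cD 0) A := by
  have e1 : a1D δ (J3 A) = rh δ (YY A) * a1D 0 (J3 A) := a1D_eq hδ (p := J3 A) hY
  have e3 : a3D δ (J3 A) = rh δ (YY A) * a3D 0 (J3 A) := a3D_eq hδ (p := J3 A) hY
  have h1 : Na (cD δ) A = a1D δ (J3 A) • Hv A + a3D δ (J3 A) • Uv A := rfl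
  have h2 : Na (cD 0) A = a1D 0 (J3 A) • Hv A + a3D 0 (J3 A) • Uv A := rfl
  rw [h1, h2, e1, e3, smul_add, smul_smul, smul_smul]

theorem ac_dNa {δ : ℝ} (hδ : 0 < δ) (A : Fin 2 → Fin 2 → EE N)
    (T : Fin 2 → Fin 2 → Fin 2 → EE N) (h0 : 0 < YY A) (k : Fin 2) :
    dNa (cD δ) A T k = rh δ (YY A) • dNa (cD 0) A T k
      + (rh1 δ (YY A) * gY A T k) • Na (cD 0) A := by
  have e1 : a1D δ (J3 A) = rh δ (YY A) * a1D 0 (J3 A) := a1D_eq hδ (p := J3 A) h0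
  have e3 : a3D δ (J3 A) = rh δ (YY A) * a3D 0 (J3 A) := a3D_eq hδ (p := J3 A) h0
  have d1 := a_d1 hδ (fun p hp => a1D_eq hδ hp) (p := J3 A) h0 (a1D0_smooth (p := J3 A) h0)
    (g3 A T k)
  have d3 := a_d1 hδ (fun p hp => a3D_eq hδ hp) (p := J3 A) h0 (a3D0_smooth (p := J3 A) h0)
    (g3 A T k)
  have h1 : dNa (cD δ) A T k = fderiv ℝ (a1D δ) (J3 A) (g3 A T k) • Hv A
      + a1D δ (J3 A) • et T k + fderiv ℝ (a3D δ) (J3 A) (g3 A T k) • Uv A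
      + a3D δ (J3 A) • dU A T k := rfl
  have h2 : dNa (cD 0) A T k = fderiv ℝ (a1D 0) (J3 A) (g3 A T k) • Hv A
      + a1D 0 (J3 A) • et T k + fderiv ℝ (a3D 0) (J3 A) (g3 A T k) • Uv A
      + a3D 0 (J3 A) • dU A T k := rfl
  have h3 : Na (cD 0) A = a1D 0 (J3 A) • Hv A + a3D 0 (J3 A) • Uv A := rfl
  have h4 : (J3 A).2.1 = YY A := rfl
  have h5 : (g3 A T k).2.1 = gY A T k := rfl
  rw [h4, h5] at d1 d3
  rw [h1, h2, h3, d1, d3, e1, e3]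
  module

theorem ac_gph {δ : ℝ} (hδ : 0 < δ) (l : ℝ) (A : Fin 2 → Fin 2 → EE N)
    (T : Fin 2 → Fin 2 → Fin 2 → EE N) (ν : EE N) (v : Fin 2 → ℝ) (hY : 0 < YY A) (k : Fin 2) :
    gph l (cD δ) A T ν v k = rh δ (YY A) * gph l (cD 0) A T ν v k
      + fD 0 (J3 A) * (rh1 δ (YY A) * gY A T k) :=
  ph_d1 hδ (p := J4 l A ν) hY (g4 l A T ν v k)

theorem ac_hph {δ : ℝ} (hδ : 0 < δ) (l : ℝ) (A : Fin 2 → Fin 2 → EE N)
    (T : Fin 2 → Fin 2 → Fin 2 → EE N) (ν : EE N) (v : Fin 2 → ℝ) (h0 : 0 < YY A) :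
    hph l (cD δ) A T ν v = rh δ (YY A) * hph l (cD 0) A T ν v
      + fD 0 (J3 A) * (rh1 δ (YY A) * hY A T - rh2 δ (YY A) * ∑ k, gY A T k ^ 2)
      - 2 * rh1 δ (YY A) * ∑ k, gY A T k * gph l (cD 0) A T ν v k := by
  have e1 : hph l (cD δ) A T ν v = fderiv ℝ (ph δ) (J4 l A ν) (h4 l A T ν v)
      - ∑ k, fderiv ℝ (fun y => fderiv ℝ (ph δ) y (g4 l A T ν v k)) (J4 l A ν)
        (g4 l A T ν v k) := rfl
  have e2 : hph l (cD 0) A T ν v = fderiv ℝ (ph 0) (J4 l A ν) (h4 l A T ν v)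
      - ∑ k, fderiv ℝ (fun y => fderiv ℝ (ph 0) y (g4 l A T ν v k)) (J4 l A ν)
        (g4 l A T ν v k) := rfl
  have e3 : ∀ k, gph l (cD 0) A T ν v k = fderiv ℝ (ph 0) (J4 l A ν) (g4 l A T ν v k) :=
    fun _ => rfl
  have e4 : ph 0 (J4 l A ν) = fD 0 (J3 A) := rfl
  have e5 : (J4 l A ν).2.1 = YY A := rfl
  have e6 : (h4 l A T ν v).2.1 = hY A T := rfl
  have e7 : ∀ k, (g4 l A T ν v k).2.1 = gY A T k := fun _ => rfl
  have d1 := ph_d1 hδ (p := J4 l A ν) h0 (h4 l A T ν v)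
  have d2 := fun k => ph_d2 hδ (p := J4 l A ν) h0 (g4 l A T ν v k)
  rw [e4, e5, e6] at d1
  simp only [e4, e5, e7] at d2
  rw [e1, e2, d1]
  simp only [e3, d2, Fin.sum_univ_two]
  ring

theorem ac_Va {δ : ℝ} (hδ : 0 < δ) (κ : ℝ) (A : Fin 2 → Fin 2 → EE N) (v : Fin 2 → ℝ)
    (h0 : 0 < YY A) (k : Fin 2) :
    Va κ (cD δ) A v k = rh δ (YY A) * Va κ (cD 0) A v k := by
  have e2 : a2D δ (J3 A) = rh δ (YY A) * a2D 0 (J3 A) := a2D_eq hδ (p := J3 A) h0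
  have h1 : Va κ (cD δ) A v k =
      κ * ((∑ a, inner ℝ (Na (cD δ) A) (A k a) * v a) + a2D δ (J3 A) * v k) := rfl
  have h2 : Va κ (cD 0) A v k =
      κ * ((∑ a, inner ℝ (Na (cD 0) A) (A k a) * v a) + a2D 0 (J3 A) * v k) := rfl
  rw [h1, h2, e2, ac_Na hδ A h0]
  simp only [Fin.sum_univ_two, real_inner_smul_left]
  ring

theorem ac_dVa {δ : ℝ} (hδ : 0 < δ) (κ : ℝ) (A : Fin 2 → Fin 2 → EE N)
    (T : Fin 2 → Fin 2 → Fin 2 → EE N) (ν : EE N) (v : Fin 2 → ℝ) (h0 : 0 < YY A) :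
    dVa κ (cD δ) A T ν v = rh δ (YY A) * dVa κ (cD 0) A T ν v
      + rh1 δ (YY A) * ∑ k, gY A T k * Va κ (cD 0) A v k := by
  have e2 : a2D δ (J3 A) = rh δ (YY A) * a2D 0 (J3 A) := a2D_eq hδ (p := J3 A) h0
  have d2 : ∀ k, fderiv ℝ (a2D δ) (J3 A) (g3 A T k) =
      rh δ (YY A) * fderiv ℝ (a2D 0) (J3 A) (g3 A T k)
        + a2D 0 (J3 A) * (rh1 δ (YY A) * gY A T k) := fun k =>
    a_d1 hδ (fun p hp => a2D_eq hδ hp) (p := J3 A) h0 (a2D0_smooth (p := J3 A) h0) (g3 A T k)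
  have hV : ∀ k, Va κ (cD 0) A v k =
      κ * ((∑ a, inner ℝ (Na (cD 0) A) (A k a) * v a) + a2D 0 (J3 A) * v k) := fun _ => rfl
  have h1 : ∀ ε : ℝ, dVa κ (cD ε) A T ν v =
      κ * ((∑ k, ∑ a, (inner ℝ (dNa (cD ε) A T k) (A k a) * v a
          + inner ℝ (Na (cD ε) A) (A k a) * ((if k = a then 1 else 0) + inner ℝ ν (A k a))))
      + (∑ a, inner ℝ (Na (cD ε) A) (et T a) * v a)
      + ∑ k, (fderiv ℝ (a2D ε) (J3 A) (g3 A T k) * v k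
          + a2D ε (J3 A) * (1 + inner ℝ ν (A k k)))) := fun _ => rfl
  rw [h1 δ, h1 0]
  simp only [d2, e2, ac_Na hδ A h0, ac_dNa hδ A T h0, hV, Fin.sum_univ_two, inner_add_left,
    real_inner_smul_left]
  ring

/-- the difference of the integrands -/
theorem ac_diff {δ : ℝ} (hδ : 0 < δ) (κ l : ℝ) (A : Fin 2 → Fin 2 → EE N)
    (T : Fin 2 → Fin 2 → Fin 2 → EE N) (ν : EE N) (v : Fin 2 → ℝ) (h0 : 0 < YY A) :
    Ig κ l δ A T ν v - rh δ (YY A) * Ig κ l 0 A T ν v =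
      -(fD 0 (J3 A) * (rh1 δ (YY A) * hY A T - rh2 δ (YY A) * ∑ k, gY A T k ^ 2))
      + 2 * rh1 δ (YY A) * (∑ k, gY A T k * gph l (cD 0) A T ν v k)
      - fD 0 (J3 A) * rh1 δ (YY A) * (∑ k, κ * v k * gY A T k)
      + rh1 δ (YY A) * ∑ k, gY A T k * Va κ (cD 0) A v k := by
  have ef : fD δ (J3 A) = rh δ (YY A) * fD 0 (J3 A) := fD_eq hδ (p := J3 A) h0
  unfold Ig dvA
  rw [ac_hph hδ l A T ν v h0, ac_dVa hδ κ A T ν v h0, ef]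
  simp only [ac_gph hδ l A T ν v h0, ac_Va hδ κ A v h0, Fin.sum_univ_two]
  ring

end Main

/-! ### Bounds -/

/-- the first derivative of `φ` -/
theorem ph0_line (X Y Z W a b c d : ℝ) (hY : 0 < Y) :
    fderiv ℝ (ph 0) (X, Y, Z, W) (a, b, c, d) =
      (a * Y + X * b - c) / Y / 4 - (X * Y - Z) / Y ^ 2 * b / 4
      + 9 / 320 * ((c - Y * b) / Y - (Z - Y ^ 2 / 2) / Y ^ 2 * b)
      + 7 / 40 * ((a * Y + X * b - c) / Y * ((Z - Y ^ 2 / 2) / Y ^ 2)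
        + (X * Y - Z) / Y ^ 2 * ((c - Y * b) / Y)
        - 3 * ((X * Y - Z) / Y ^ 2) * ((Z - Y ^ 2 / 2) / Y ^ 2) * b) := by
  have hx : HasDerivAt (fun s : ℝ => X + s * a) a 0 := by
    simpa using ((hasDerivAt_id (0 : ℝ)).mul_const a).const_add X
  have hy : HasDerivAt (fun s : ℝ => Y + s * b) b 0 := by
    simpa using ((hasDerivAt_id (0 : ℝ)).mul_const b).const_add Y
  have hz : HasDerivAt (fun s : ℝ => Z + s * c) c 0 := by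
    simpa using ((hasDerivAt_id (0 : ℝ)).mul_const c).const_add Z
  have hrp := (hx.fun_mul hy).fun_sub hz
  have hmp := hz.fun_sub ((hy.fun_pow 2).div_const 2)
  have hnum := ((hy.fun_pow 3).fun_mul ((hrp.div_const 4).fun_add
    (hmp.const_mul (9 / 320)))).fun_add (((hrp.fun_mul hmp).fun_mul hy).const_mul (7 / 40))
  have hden := (hy.fun_pow 4).add_const ((0 : ℝ) ^ 4)
  have h1 := hnum.fun_div hden (by
    simp only [zero_mul, add_zero]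
    positivity)
  have h2 : HasDerivAt (fun s : ℝ => ph 0 ((X, Y, Z, W) + s • (a, b, c, d)))
      (fderiv ℝ (ph 0) (X, Y, Z, W) (a, b, c, d)) 0 := by
    have h3 : HasFDerivAt (ph 0) (fderiv ℝ (ph 0) (X, Y, Z, W)) (X, Y, Z, W) :=
      ((ph_smooth (p := (X, Y, Z, W)) hY).differentiableAt (by simp)).hasFDerivAt
    have h4 : HasDerivAt (fun s : ℝ => (X, Y, Z, W) + s • (a, b, c, d)) (a, b, c, d) 0 := by
      simpa using ((hasDerivAt_id (0 : ℝ)).smul_const (a, b, c, d)).const_add (X, Y, Z, W)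
    exact h3.comp_hasDerivAt_of_eq (0 : ℝ) h4 (by simp)
  have h5 := h2.unique h1
  rw [h5]
  simp only [zero_mul, add_zero]
  field_simp
  ring

/-- bound of the derivative of `φ` -/
theorem fk_bound (u w y r m B : ℝ) (hr0 : 0 ≤ r) (hr : r ≤ 1 / 2) (hm0 : 0 ≤ m) (hm : m ≤ 1 / 2)
    (hu : |u| ≤ 36 * B) (hw : |w| ≤ 28 * B) (hy : |y| ≤ 4 * B) :
    |u / 4 - r * y / 4 + 9 / 320 * (w - m * y) + 7 / 40 * (u * m + r * w - 3 * r * m * y)|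
      ≤ 20 * B := by
  have hB : 0 ≤ B := by
    have := abs_nonneg y
    linarith
  have b1 : |r * y| ≤ 2 * B := by
    rw [abs_mul, abs_of_nonneg hr0]
    nlinarith [abs_nonneg y]
  have b2 : |m * y| ≤ 2 * B := by
    rw [abs_mul, abs_of_nonneg hm0]
    nlinarith [abs_nonneg y]
  have b3 : |u * m| ≤ 18 * B := by
    rw [abs_mul, abs_of_nonneg hm0]
    nlinarith [abs_nonneg u]
  have b4 : |r * w| ≤ 14 * B := by
    rw [abs_mul, abs_of_nonneg hr0]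
    nlinarith [abs_nonneg w]
  have b5 : |r * (m * y)| ≤ B := by
    rw [abs_mul, abs_of_nonneg hr0]
    nlinarith [abs_nonneg (m * y)]
  rw [abs_le] at *
  have e : r * m * y = r * (m * y) := by ring
  constructor
  · have : 3 * r * m * y = 3 * (r * (m * y)) := by ring
    rw [this]
    linarith [hu.1, hu.2, hw.1, hw.2, b1.1, b1.2, b2.1, b2.2, b3.1, b3.2, b4.1, b4.2, b5.1, b5.2]
  · have : 3 * r * m * y = 3 * (r * (m * y)) := by ring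
    rw [this]
    linarith [hu.1, hu.2, hw.1, hw.2, b1.1, b1.2, b2.1, b2.2, b3.1, b3.2, b4.1, b4.2, b5.1, b5.2]

section Bounds

variable {N : ℕ}

theorem bd_A (A : Fin 2 → Fin 2 → EE N) (hX : XX A ≤ YY A) (i j : Fin 2) :
    ‖A i j‖ ≤ ‖Hv A‖ := by
  have h1 : ‖A i j‖ ^ 2 ≤ XX A := by
    unfold XX
    calc ‖A i j‖ ^ 2 ≤ ∑ j, ‖A i j‖ ^ 2 :=
          Finset.single_le_sum (f := fun j => ‖A i j‖ ^ 2) (fun _ _ => sq_nonneg _)
            (Finset.mem_univ j)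
      _ ≤ ∑ i, ∑ j, ‖A i j‖ ^ 2 :=
          Finset.single_le_sum (f := fun i => ∑ j, ‖A i j‖ ^ 2)
            (fun _ _ => Finset.sum_nonneg fun _ _ => sq_nonneg _) (Finset.mem_univ i)
  have h2 : ‖A i j‖ ^ 2 ≤ ‖Hv A‖ ^ 2 := h1.trans hX
  exact (sq_le_sq₀ (norm_nonneg _) (norm_nonneg _)).mp h2

theorem bd_T (T : Fin 2 → Fin 2 → Fin 2 → EE N) (i j k : Fin 2) :
    ‖T i j k‖ ≤ Real.sqrt (tq T) := by
  apply Real.le_sqrt_of_sq_le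
  unfold tq
  calc ‖T i j k‖ ^ 2 ≤ ∑ k, ‖T i j k‖ ^ 2 :=
        Finset.single_le_sum (f := fun k => ‖T i j k‖ ^ 2) (fun _ _ => sq_nonneg _)
          (Finset.mem_univ k)
    _ ≤ ∑ j, ∑ k, ‖T i j k‖ ^ 2 :=
        Finset.single_le_sum (f := fun j => ∑ k, ‖T i j k‖ ^ 2)
          (fun _ _ => Finset.sum_nonneg fun _ _ => sq_nonneg _) (Finset.mem_univ j)
    _ ≤ ∑ i, ∑ j, ∑ k, ‖T i j k‖ ^ 2 :=
        Finset.single_le_sum (f := fun i => ∑ j, ∑ k, ‖T i j k‖ ^ 2)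
          (fun _ _ => Finset.sum_nonneg fun _ _ => Finset.sum_nonneg fun _ _ => sq_nonneg _)
          (Finset.mem_univ i)

theorem bd_et (T : Fin 2 → Fin 2 → Fin 2 → EE N) (k : Fin 2) :
    ‖et T k‖ ≤ 2 * Real.sqrt (tq T) := by
  unfold et
  rw [Fin.sum_univ_two]
  have h1 := bd_T T 0 0 k
  have h2 := bd_T T 1 1 k
  have h3 := norm_add_le (T 0 0 k) (T 1 1 k)
  linarith

theorem bd_in {a b : EE N} {p q : ℝ} (ha : ‖a‖ ≤ p) (hb : ‖b‖ ≤ q) : |inner ℝ a b| ≤ p * q :=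
  (abs_real_inner_le_norm a b).trans
    (mul_le_mul ha hb (norm_nonneg _) ((norm_nonneg _).trans ha))

theorem bd_gY (A : Fin 2 → Fin 2 → EE N) (T : Fin 2 → Fin 2 → Fin 2 → EE N) (k : Fin 2) :
    |gY A T k| ≤ 4 * (‖Hv A‖ * Real.sqrt (tq T)) := by
  unfold gY
  have h1 := bd_in (le_refl ‖Hv A‖) (bd_et T k)
  rw [abs_mul, abs_of_pos (by norm_num : (0 : ℝ) < 2)]
  linarith

theorem bd_gX (A : Fin 2 → Fin 2 → EE N) (T : Fin 2 → Fin 2 → Fin 2 → EE N)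
    (hX : XX A ≤ YY A) (k : Fin 2) :
    |gX A T k| ≤ 8 * (‖Hv A‖ * Real.sqrt (tq T)) := by
  unfold gX
  simp only [Fin.sum_univ_two]
  have h := fun i j => abs_le.mp (bd_in (bd_A A hX i j) (bd_T T i j k))
  rw [abs_le]
  constructor <;> linarith [(h 0 0).1, (h 0 0).2, (h 0 1).1, (h 0 1).2, (h 1 0).1, (h 1 0).2,
    (h 1 1).1, (h 1 1).2]

theorem bd_zz (A : Fin 2 → Fin 2 → EE N) (hX : XX A ≤ YY A) (i j : Fin 2) :
    |zz A i j| ≤ ‖Hv A‖ ^ 2 := by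
  unfold zz
  have := bd_in (bd_A A hX i j) (le_refl ‖Hv A‖)
  rwa [← pow_two] at this

theorem bd_gz (A : Fin 2 → Fin 2 → EE N) (T : Fin 2 → Fin 2 → Fin 2 → EE N)
    (hX : XX A ≤ YY A) (i j k : Fin 2) :
    |gz A T i j k| ≤ 3 * (‖Hv A‖ * Real.sqrt (tq T)) := by
  unfold gz
  have h1 := bd_in (bd_T T i j k) (le_refl ‖Hv A‖)
  have h2 := bd_in (bd_A A hX i j) (bd_et T k)
  have h3 := abs_add_le (inner ℝ (T i j k) (Hv A)) (inner ℝ (A i j) (et T k))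
  nlinarith

theorem bd_gZ (A : Fin 2 → Fin 2 → EE N) (T : Fin 2 → Fin 2 → Fin 2 → EE N)
    (hX : XX A ≤ YY A) (k : Fin 2) :
    |gZ A T k| ≤ 24 * (‖Hv A‖ ^ 2 * (‖Hv A‖ * Real.sqrt (tq T))) := by
  unfold gZ
  simp only [Fin.sum_univ_two]
  have h : ∀ i j, |zz A i j * gz A T i j k| ≤
      3 * (‖Hv A‖ ^ 2 * (‖Hv A‖ * Real.sqrt (tq T))) := by
    intro i j
    rw [abs_mul]
    calc |zz A i j| * |gz A T i j k| ≤ ‖Hv A‖ ^ 2 * (3 * (‖Hv A‖ * Real.sqrt (tq T))) :=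
          mul_le_mul (bd_zz A hX i j) (bd_gz A T hX i j k) (abs_nonneg _) (by positivity)
      _ = 3 * (‖Hv A‖ ^ 2 * (‖Hv A‖ * Real.sqrt (tq T))) := by ring
  have h' := fun i j => abs_le.mp (h i j)
  rw [abs_le]
  constructor <;> linarith [(h' 0 0).1, (h' 0 0).2, (h' 0 1).1, (h' 0 1).2, (h' 1 0).1,
    (h' 1 0).2, (h' 1 1).1, (h' 1 1).2]

theorem bd_U (A : Fin 2 → Fin 2 → EE N) (hX : XX A ≤ YY A) : ‖Uv A‖ ≤ 4 * ‖Hv A‖ ^ 3 := by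
  unfold Uv
  have h : ∀ i j, ‖zz A i j • A i j‖ ≤ ‖Hv A‖ ^ 3 := by
    intro i j
    rw [norm_smul, Real.norm_eq_abs]
    calc |zz A i j| * ‖A i j‖ ≤ ‖Hv A‖ ^ 2 * ‖Hv A‖ :=
          mul_le_mul (bd_zz A hX i j) (bd_A A hX i j) (norm_nonneg _) (by positivity)
      _ = ‖Hv A‖ ^ 3 := by ring
  simp only [Fin.sum_univ_two]
  have h1 := norm_add_le (zz A 0 0 • A 0 0 + zz A 0 1 • A 0 1) (zz A 1 0 • A 1 0 + zz A 1 1 • A 1 1)
  have h2 := norm_add_le (zz A 0 0 • A 0 0) (zz A 0 1 • A 0 1)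
  have h3 := norm_add_le (zz A 1 0 • A 1 0) (zz A 1 1 • A 1 1)
  linarith [h 0 0, h 0 1, h 1 0, h 1 1]

/-- the functions of the certificate in the normalised variables -/
theorem a1_form {p : ℝ × ℝ × ℝ} (hp : 0 < p.2.1) :
    a1D 0 p = -(rp p / p.2.1 ^ 2 / 2 + 9 / 160 * (mp p / p.2.1 ^ 2)
        + 7 / 20 * (rp p / p.2.1 ^ 2 * (mp p / p.2.1 ^ 2)))
      - (41 / 100 + 3 / 2 * (mp p / p.2.1 ^ 2)) * (1 / 2 + mp p / p.2.1 ^ 2)
      + 9 / 40 * (rp p / p.2.1 ^ 2) + (-(9 / 1000) + 1 / 40 * (mp p / p.2.1 ^ 2)) := by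
  unfold a1D dn
  field_simp
  ring

theorem a2_form {p : ℝ × ℝ × ℝ} (hp : 0 < p.2.1) :
    a2D 0 p = p.2.1 * (-(9 / 80) * (rp p / p.2.1 ^ 2)
      - 1 / 2 * (-(9 / 1000) + 1 / 40 * (mp p / p.2.1 ^ 2))) + fD 0 p := by
  unfold a2D dn
  congr 1
  field_simp
  ring

theorem a3_form {p : ℝ × ℝ × ℝ} (hp : 0 < p.2.1) :
    a3D 0 p = (41 / 100 + 3 / 2 * (mp p / p.2.1 ^ 2)) / p.2.1 := by
  unfold a3D dn
  field_simp
  ring

/-- everything about the coefficients at `J3 A` -/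
theorem coef (hAF : StAF) (A : Fin 2 → Fin 2 → EE N) (hS : SymV A) (h0 : 0 < YY A)
    (hX : XX A ≤ YY A) :
    (0 ≤ rp (J3 A) / YY A ^ 2 ∧ rp (J3 A) / YY A ^ 2 ≤ 1 / 2) ∧
    (0 ≤ mp (J3 A) / YY A ^ 2 ∧ mp (J3 A) / YY A ^ 2 ≤ 1 / 2) ∧
    (0 ≤ fD 0 (J3 A) ∧ fD 0 (J3 A) ≤ YY A) ∧
    |a1D 0 (J3 A)| ≤ 2 ∧ |a2D 0 (J3 A)| ≤ 2 * YY A ∧ |a3D 0 (J3 A)| ≤ 2 / YY A := by
  obtain ⟨h1, h2, h3, h4, h5, h6, -⟩ := hAF.2 N A 0 hS le_rfl hX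
  have e : (J3 A).2.1 = YY A := rfl
  have hr : 0 ≤ rp (J3 A) / YY A ^ 2 ∧ rp (J3 A) / YY A ^ 2 ≤ 1 / 2 := by
    refine ⟨by positivity, ?_⟩
    rw [div_le_iff₀ (by positivity)]
    linarith
  have hm : 0 ≤ mp (J3 A) / YY A ^ 2 ∧ mp (J3 A) / YY A ^ 2 ≤ 1 / 2 := by
    refine ⟨by positivity, ?_⟩
    rw [div_le_iff₀ (by positivity)]
    linarith
  refine ⟨hr, hm, ⟨h5, h6⟩, ?_, ?_, ?_⟩
  · rw [a1_form (p := J3 A) h0, e]
    obtain ⟨r0, r1⟩ := hr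
    obtain ⟨m0, m1⟩ := hm
    set r := rp (J3 A) / YY A ^ 2
    set m := mp (J3 A) / YY A ^ 2
    have k1 : 0 ≤ r * m := mul_nonneg r0 m0
    have k2 : r * m ≤ 1 / 4 := by nlinarith
    have k3 : m * m ≤ 1 / 4 := by nlinarith
    have k4 : 0 ≤ m * m := mul_nonneg m0 m0
    rw [abs_le]
    constructor <;> nlinarith
  · rw [a2_form (p := J3 A) h0, e]
    obtain ⟨r0, r1⟩ := hr
    obtain ⟨m0, m1⟩ := hm
    set r := rp (J3 A) / YY A ^ 2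
    set m := mp (J3 A) / YY A ^ 2
    have k1 : |-(9 / 80) * r - 1 / 2 * (-(9 / 1000) + 1 / 40 * m)| ≤ 1 := by
      rw [abs_le]
      constructor <;> linarith
    have k2 : |YY A * (-(9 / 80) * r - 1 / 2 * (-(9 / 1000) + 1 / 40 * m))| ≤ YY A := by
      rw [abs_mul, abs_of_pos h0]
      nlinarith
    have k3 := abs_le.mp k2
    rw [abs_le]
    constructor <;> linarith
  · rw [a3_form (p := J3 A) h0, e, abs_div, abs_of_pos h0]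
    obtain ⟨m0, m1⟩ := hm
    apply div_le_div_of_nonneg_right _ h0.le
    rw [abs_le]
    constructor <;> linarith

theorem bd_Na (hAF : StAF) (A : Fin 2 → Fin 2 → EE N) (hS : SymV A) (h0 : 0 < YY A)
    (hX : XX A ≤ YY A) : ‖Na (cD 0) A‖ ≤ 10 * ‖Hv A‖ := by
  obtain ⟨-, -, -, h1, -, h3⟩ := coef hAF A hS h0 hX
  have e : Na (cD 0) A = a1D 0 (J3 A) • Hv A + a3D 0 (J3 A) • Uv A := rfl
  have hg : 0 < ‖Hv A‖ := by
    have : YY A = ‖Hv A‖ ^ 2 := rfl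
    rw [this] at h0
    by_contra hcon
    have : ‖Hv A‖ = 0 := le_antisymm (not_lt.mp hcon) (norm_nonneg _)
    rw [this] at h0
    norm_num at h0
  rw [e]
  refine (norm_add_le _ _).trans ?_
  rw [norm_smul, norm_smul, Real.norm_eq_abs, Real.norm_eq_abs]
  have k1 : |a1D 0 (J3 A)| * ‖Hv A‖ ≤ 2 * ‖Hv A‖ := mul_le_mul_of_nonneg_right h1 hg.le
  have k2 : |a3D 0 (J3 A)| * ‖Uv A‖ ≤ 2 / YY A * (4 * ‖Hv A‖ ^ 3) :=
    mul_le_mul h3 (bd_U A hX) (norm_nonneg _) (by positivity)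
  have k3 : 2 / YY A * (4 * ‖Hv A‖ ^ 3) = 8 * ‖Hv A‖ := by
    have : YY A = ‖Hv A‖ ^ 2 := rfl
    rw [this]
    field_simp
    ring
  linarith

theorem bd_V (hAF : StAF) (κ : ℝ) (A : Fin 2 → Fin 2 → EE N) (v : Fin 2 → ℝ) (hS : SymV A)
    (h0 : 0 < YY A) (hX : XX A ≤ YY A) (k : Fin 2) :
    |Va κ (cD 0) A v k| ≤ 12 * YY A * (|κ * v 0| + |κ * v 1|) := by
  obtain ⟨-, -, -, -, h2, -⟩ := coef hAF A hS h0 hX
  have hN := bd_Na hAF A hS h0 hX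
  have e : Va κ (cD 0) A v k =
      κ * ((∑ a, inner ℝ (Na (cD 0) A) (A k a) * v a) + a2D 0 (J3 A) * v k) := rfl
  have hY : YY A = ‖Hv A‖ ^ 2 := rfl
  have k1 : ∀ a, |inner ℝ (Na (cD 0) A) (A k a) * (κ * v a)| ≤ 10 * YY A * |κ * v a| := by
    intro a
    rw [abs_mul]
    apply mul_le_mul_of_nonneg_right _ (abs_nonneg _)
    have := bd_in hN (bd_A A hX k a)
    rw [hY]
    calc |inner ℝ (Na (cD 0) A) (A k a)| ≤ 10 * ‖Hv A‖ * ‖Hv A‖ := this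
      _ = 10 * ‖Hv A‖ ^ 2 := by ring
  have k2 : |a2D 0 (J3 A) * (κ * v k)| ≤ 2 * YY A * |κ * v k| := by
    rw [abs_mul]
    exact mul_le_mul_of_nonneg_right h2 (abs_nonneg _)
  have k3 : |κ * v k| ≤ |κ * v 0| + |κ * v 1| := by
    fin_cases k
    · have := abs_nonneg (κ * v 1)
      simp only [Fin.zero_eta]
      linarith
    · have := abs_nonneg (κ * v 0)
      simp only [Fin.mk_one]
      linarith
  have k4 : 2 * YY A * |κ * v k| ≤ 2 * YY A * (|κ * v 0| + |κ * v 1|) :=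
    mul_le_mul_of_nonneg_left k3 (by positivity)
  have e2 : Va κ (cD 0) A v k = inner ℝ (Na (cD 0) A) (A k 0) * (κ * v 0)
      + inner ℝ (Na (cD 0) A) (A k 1) * (κ * v 1) + a2D 0 (J3 A) * (κ * v k) := by
    rw [e, Fin.sum_univ_two]
    ring
  rw [e2]
  refine (abs_add_le _ _).trans ?_
  have k5 := abs_add_le (inner ℝ (Na (cD 0) A) (A k 0) * (κ * v 0))
    (inner ℝ (Na (cD 0) A) (A k 1) * (κ * v 1))
  linarith [k1 0, k1 1]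

theorem bd_f (hAF : StAF) (l : ℝ) (A : Fin 2 → Fin 2 → EE N)
    (T : Fin 2 → Fin 2 → Fin 2 → EE N) (ν : EE N) (v : Fin 2 → ℝ) (hS : SymV A)
    (h0 : 0 < YY A) (hX : XX A ≤ YY A) (k : Fin 2) :
    |gph l (cD 0) A T ν v k| ≤ 20 * (‖Hv A‖ * Real.sqrt (tq T)) := by
  obtain ⟨⟨r0, r1⟩, ⟨m0, m1⟩, -, -, -, -⟩ := coef hAF A hS h0 hX
  have e : gph l (cD 0) A T ν v k = fderiv ℝ (ph 0) (XX A, YY A, ZZ A, ‖Wl l A ν‖ ^ 2)
    (gX A T k, gY A T k, gZ A T k, gW l A T ν v k) := rfl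
  rw [e, ph0_line _ _ _ _ _ _ _ _ h0]
  have er : (XX A * YY A - ZZ A) / YY A ^ 2 = rp (J3 A) / YY A ^ 2 := rfl
  have em : (ZZ A - YY A ^ 2 / 2) / YY A ^ 2 = mp (J3 A) / YY A ^ 2 := rfl
  rw [er, em]
  have hX0 : 0 ≤ XX A := Finset.sum_nonneg fun _ _ => Finset.sum_nonneg fun _ _ => sq_nonneg _
  have hZ := bd_gZ A T hX k
  have hYk := bd_gY A T k
  have hXk := bd_gX A T hX k
  set B := ‖Hv A‖ * Real.sqrt (tq T) with hB
  have hB0 : 0 ≤ B := by positivity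
  have hYe : YY A = ‖Hv A‖ ^ 2 := rfl
  rw [← hYe] at hZ
  have z1 : |gZ A T k / YY A| ≤ 24 * B := by
    rw [abs_div, abs_of_pos h0, div_le_iff₀ h0]
    linarith
  have z2 : |XX A / YY A * gY A T k| ≤ 4 * B := by
    have : 0 ≤ XX A / YY A := by positivity
    have h9 : XX A / YY A ≤ 1 := (div_le_one h0).mpr hX
    rw [abs_mul, abs_of_nonneg this]
    calc XX A / YY A * |gY A T k| ≤ 1 * |gY A T k| := mul_le_mul_of_nonneg_right h9 (abs_nonneg _)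
      _ ≤ 4 * B := by linarith
  have hu : |(gX A T k * YY A + XX A * gY A T k - gZ A T k) / YY A| ≤ 36 * B := by
    have : (gX A T k * YY A + XX A * gY A T k - gZ A T k) / YY A =
        gX A T k + XX A / YY A * gY A T k - gZ A T k / YY A := by
      field_simp
    rw [this]
    rw [abs_le] at *
    constructor <;> linarith [z1.1, z1.2, z2.1, z2.2, hXk.1, hXk.2]
  have hw : |(gZ A T k - YY A * gY A T k) / YY A| ≤ 28 * B := by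
    have : (gZ A T k - YY A * gY A T k) / YY A = gZ A T k / YY A - gY A T k := by
      field_simp
    rw [this]
    rw [abs_le] at *
    constructor <;> linarith [z1.1, z1.2, hYk.1, hYk.2]
  exact fk_bound _ _ _ _ _ B r0 r1 m0 m1 hu hw hYk

end Bounds

/-- the final estimate with real numbers -/
theorem ac_final (Y g τ ρ f hy S P1 P2 P3 a b : ℝ) (hY : Y = g ^ 2) (h0 : 0 < Y) (hg : 0 ≤ g)
    (hτ : 0 ≤ τ) (hρ0 : 0 ≤ ρ) (hρ1 : ρ ≤ 1) (hf0 : 0 ≤ f) (hf : f ≤ Y)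
    (hhy : |hy| ≤ 16 * τ ^ 2 + 2 * Y ^ 2) (hS0 : 0 ≤ S) (hS : S ≤ 32 * (Y * τ ^ 2))
    (hP1 : |P1| ≤ 160 * (Y * τ ^ 2)) (hP2 : |P2| ≤ 4 * (g * τ) * (|a| + |b|))
    (hP3 : |P3| ≤ 96 * Y * (g * τ) * (|a| + |b|)) :
    |-(f * (4 / Y * (ρ * (1 - ρ)) * hy - 4 / Y ^ 2 * (ρ * (1 - ρ)) * (3 - 8 * ρ) * S))
      + 2 * (4 / Y * (ρ * (1 - ρ))) * P1 - f * (4 / Y * (ρ * (1 - ρ))) * P2
      + 4 / Y * (ρ * (1 - ρ)) * P3| ≤
      2500 * (ρ * (1 - ρ) * (τ ^ 2 + Y ^ 2 + Y * (a ^ 2 + b ^ 2))) := by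
  have hq : 0 ≤ ρ * (1 - ρ) := mul_nonneg hρ0 (by linarith)
  set q := ρ * (1 - ρ) with hqd
  set F := f / Y with hF
  have hF0 : 0 ≤ F := by positivity
  have hF1 : F ≤ 1 := (div_le_one h0).mpr hf
  have e : -(f * (4 / Y * q * hy - 4 / Y ^ 2 * q * (3 - 8 * ρ) * S))
      + 2 * (4 / Y * q) * P1 - f * (4 / Y * q) * P2 + 4 / Y * q * P3 =
      q * (-(4 * (F * hy)) + 4 * (F * ((3 - 8 * ρ) * (S / Y))) + 8 * (P1 / Y) - 4 * (F * P2)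
        + 4 * (P3 / Y)) := by
    rw [hF]
    field_simp
    ring
  rw [e, abs_mul, abs_of_nonneg hq]
  have hs : g * τ * (|a| + |b|) ≤ τ ^ 2 / 2 + Y * (a ^ 2 + b ^ 2) := by
    rw [hY]
    have h1 : 0 ≤ (τ - g * (|a| + |b|)) ^ 2 := sq_nonneg _
    have h2 : 0 ≤ (|a| - |b|) ^ 2 := sq_nonneg _
    have h3 : |a| ^ 2 = a ^ 2 := sq_abs a
    have h4 : |b| ^ 2 = b ^ 2 := sq_abs b
    have h5 : (|a| + |b|) ^ 2 ≤ 2 * (a ^ 2 + b ^ 2) := by nlinarith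
    have h6 : g ^ 2 * (|a| + |b|) ^ 2 ≤ g ^ 2 * (2 * (a ^ 2 + b ^ 2)) :=
      mul_le_mul_of_nonneg_left h5 (sq_nonneg _)
    nlinarith
  have c1 : |F * hy| ≤ 16 * τ ^ 2 + 2 * Y ^ 2 := by
    rw [abs_mul, abs_of_nonneg hF0]
    calc F * |hy| ≤ 1 * |hy| := mul_le_mul_of_nonneg_right hF1 (abs_nonneg _)
      _ ≤ 16 * τ ^ 2 + 2 * Y ^ 2 := by linarith
  have c2 : |F * ((3 - 8 * ρ) * (S / Y))| ≤ 160 * τ ^ 2 := by
    have d1 : |3 - 8 * ρ| ≤ 5 := by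
      rw [abs_le]
      constructor <;> linarith
    have d2 : 0 ≤ S / Y := by positivity
    have d3 : S / Y ≤ 32 * τ ^ 2 := by
      rw [div_le_iff₀ h0]
      linarith
    rw [abs_mul, abs_mul, abs_of_nonneg hF0, abs_of_nonneg d2]
    calc F * (|3 - 8 * ρ| * (S / Y)) ≤ 1 * (5 * (32 * τ ^ 2)) := by gcongr
      _ = 160 * τ ^ 2 := by ring
  have c3 : |P1 / Y| ≤ 160 * τ ^ 2 := by
    rw [abs_div, abs_of_pos h0, div_le_iff₀ h0]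
    linarith
  have c4 : |F * P2| ≤ 4 * (g * τ * (|a| + |b|)) := by
    rw [abs_mul, abs_of_nonneg hF0]
    calc F * |P2| ≤ 1 * |P2| := mul_le_mul_of_nonneg_right hF1 (abs_nonneg _)
      _ ≤ 4 * (g * τ * (|a| + |b|)) := by linarith
  have c5 : |P3 / Y| ≤ 96 * (g * τ * (|a| + |b|)) := by
    rw [abs_div, abs_of_pos h0, div_le_iff₀ h0]
    linarith
  have hbr : |-(4 * (F * hy)) + 4 * (F * ((3 - 8 * ρ) * (S / Y))) + 8 * (P1 / Y) - 4 * (F * P2)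
        + 4 * (P3 / Y)| ≤ 2500 * (τ ^ 2 + Y ^ 2 + Y * (a ^ 2 + b ^ 2)) := by
    have p1 : 0 ≤ τ ^ 2 := sq_nonneg _
    have p2 : 0 ≤ Y ^ 2 := sq_nonneg _
    have p3 : 0 ≤ Y * (a ^ 2 + b ^ 2) := by positivity
    rw [abs_le] at *
    constructor
    · linarith [c1.1, c1.2, c2.1, c2.2, c3.1, c3.2, c4.1, c4.2, c5.1, c5.2]
    · linarith [c1.1, c1.2, c2.1, c2.2, c3.1, c3.2, c4.1, c4.2, c5.1, c5.2]
  calc q * _ ≤ q * (2500 * (τ ^ 2 + Y ^ 2 + Y * (a ^ 2 + b ^ 2))) :=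
        mul_le_mul_of_nonneg_left hbr hq
    _ = 2500 * (q * (τ ^ 2 + Y ^ 2 + Y * (a ^ 2 + b ^ 2))) := by ring

/-- Module AC. -/
theorem hAC (hAF : StAF) : StAC := by
  refine ⟨2500, by norm_num, ?_⟩
  intro N A T ν v κ l δ hS hT h0 hX hδ ρ hρ
  have hρ' : ρ = rh δ (YY A) := hρ
  subst hρ'
  rw [ac_diff hδ κ l A T ν v h0, rh1_val hδ h0, rh2_val hδ h0]
  obtain ⟨ρ0, ρ1⟩ := rh_mem hδ (YY A)
  obtain ⟨⟨r0, r1⟩, -, ⟨f0, f1⟩, -, -, -⟩ := coef hAF A hS h0 hX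
  have htq : 0 ≤ tq T := Finset.sum_nonneg fun _ _ => Finset.sum_nonneg fun _ _ =>
    Finset.sum_nonneg fun _ _ => sq_nonneg _
  have hτ2 : Real.sqrt (tq T) ^ 2 = tq T := Real.sq_sqrt htq
  have hYe : YY A = ‖Hv A‖ ^ 2 := rfl
  have hgY := bd_gY A T
  have hf := bd_f hAF l A T ν v hS h0 hX
  have hV := bd_V hAF κ A v hS h0 hX
  have het := bd_et T
  have hg0 : 0 ≤ ‖Hv A‖ := norm_nonneg _
  have hτ0 : 0 ≤ Real.sqrt (tq T) := Real.sqrt_nonneg _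
  -- bound of ZZ
  have hZ0 : 0 ≤ ZZ A := Finset.sum_nonneg fun _ _ => Finset.sum_nonneg fun _ _ => sq_nonneg _
  have hX0 : 0 ≤ XX A := Finset.sum_nonneg fun _ _ => Finset.sum_nonneg fun _ _ => sq_nonneg _
  have hZ1 : ZZ A ≤ YY A ^ 2 := by
    have h1 : 0 ≤ rp (J3 A) := by
      have h2 : rp (J3 A) = rp (J3 A) / YY A ^ 2 * YY A ^ 2 := by field_simp
      rw [h2]
      positivity
    have h3 : rp (J3 A) = XX A * YY A - ZZ A := rfl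
    rw [h3] at h1
    nlinarith
  have hhy : |hY A T| ≤ 16 * Real.sqrt (tq T) ^ 2 + 2 * YY A ^ 2 := by
    unfold hY
    rw [Fin.sum_univ_two]
    have e0 : ‖et T 0‖ ^ 2 ≤ 4 * Real.sqrt (tq T) ^ 2 := by
      have := pow_le_pow_left₀ (norm_nonneg _) (het 0) 2
      nlinarith
    have e1 : ‖et T 1‖ ^ 2 ≤ 4 * Real.sqrt (tq T) ^ 2 := by
      have := pow_le_pow_left₀ (norm_nonneg _) (het 1) 2
      nlinarith
    have e2 : 0 ≤ ‖et T 0‖ ^ 2 := sq_nonneg _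
    have e3 : 0 ≤ ‖et T 1‖ ^ 2 := sq_nonneg _
    have e4 : 0 ≤ YY A ^ 2 := sq_nonneg _
    rw [abs_le]
    constructor <;> linarith
  have hgY2 : ∀ k, gY A T k ^ 2 ≤ 16 * (YY A * Real.sqrt (tq T) ^ 2) := by
    intro k
    have h1 : gY A T k ^ 2 ≤ (4 * (‖Hv A‖ * Real.sqrt (tq T))) ^ 2 := by
      rw [← sq_abs (gY A T k)]
      exact pow_le_pow_left₀ (abs_nonneg _) (hgY k) 2
    rw [hYe]
    nlinarith
  have hprod : ∀ k, |gY A T k * gph l (cD 0) A T ν v k| ≤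
      80 * (YY A * Real.sqrt (tq T) ^ 2) := by
    intro k
    rw [abs_mul, hYe]
    calc |gY A T k| * |gph l (cD 0) A T ν v k| ≤
        (4 * (‖Hv A‖ * Real.sqrt (tq T))) * (20 * (‖Hv A‖ * Real.sqrt (tq T))) :=
          mul_le_mul (hgY k) (hf k) (abs_nonneg _) (by positivity)
      _ = 80 * (‖Hv A‖ ^ 2 * Real.sqrt (tq T) ^ 2) := by ring
  have hp2 : ∀ k, |κ * v k * gY A T k| ≤ 4 * (‖Hv A‖ * Real.sqrt (tq T)) * |κ * v k| := by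
    intro k
    rw [abs_mul, mul_comm]
    exact mul_le_mul_of_nonneg_right (hgY k) (abs_nonneg _)
  have hp3 : ∀ k, |gY A T k * Va κ (cD 0) A v k| ≤
      48 * YY A * (‖Hv A‖ * Real.sqrt (tq T)) * (|κ * v 0| + |κ * v 1|) := by
    intro k
    rw [abs_mul]
    calc |gY A T k| * |Va κ (cD 0) A v k| ≤
        (4 * (‖Hv A‖ * Real.sqrt (tq T))) * (12 * YY A * (|κ * v 0| + |κ * v 1|)) :=
          mul_le_mul (hgY k) (hV k) (abs_nonneg _) (by positivity)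
      _ = 48 * YY A * (‖Hv A‖ * Real.sqrt (tq T)) * (|κ * v 0| + |κ * v 1|) := by ring
  have key := ac_final (YY A) ‖Hv A‖ (Real.sqrt (tq T)) (rh δ (YY A)) (fD 0 (J3 A)) (hY A T)
    (∑ k, gY A T k ^ 2) (∑ k, gY A T k * gph l (cD 0) A T ν v k) (∑ k, κ * v k * gY A T k)
    (∑ k, gY A T k * Va κ (cD 0) A v k) (κ * v 0) (κ * v 1) hYe h0 hg0 hτ0 ρ0 ρ1 f0 f1 hhy
    (Finset.sum_nonneg fun _ _ => sq_nonneg _)
    (by
      rw [Fin.sum_univ_two]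
      linarith [hgY2 0, hgY2 1])
    (by
      rw [Fin.sum_univ_two]
      have := abs_add_le (gY A T 0 * gph l (cD 0) A T ν v 0) (gY A T 1 * gph l (cD 0) A T ν v 1)
      linarith [hprod 0, hprod 1])
    (by
      rw [Fin.sum_univ_two]
      have := abs_add_le (κ * v 0 * gY A T 0) (κ * v 1 * gY A T 1)
      linarith [hp2 0, hp2 1])
    (by
      rw [Fin.sum_univ_two]
      have := abs_add_le (gY A T 0 * Va κ (cD 0) A v 0) (gY A T 1 * Va κ (cD 0) A v 1)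
      linarith [hp3 0, hp3 1])
  refine key.trans (le_of_eq ?_)
  rw [hτ2, Fin.sum_univ_two]
  ring

end Pool.Agent.Helper80.CL
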