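import Pool.Agent.Helper32.CL.St1

/-!
# Project CL, module TD (MP_b2fa09_gt): time derivative of an integral
-/

set_option autoImplicit false

namespace Pool.Agent.Helper80.CL

open Helper32.CL Helper35.PI Helper35.PI2
open scoped ContDiff Manifold Topology ENNReal BigOperators
open MeasureTheory Set Filter

variable {n N : ℕ} {M : Type} [TopologicalSpace M] [ChartedSpace (EE n) M]

/-- continuity of a function on space time in a chart, times the density -/
theorem cst_chart [IsManifold (𝓡 n) ∞ M] (hEB : StEB) {F : M → ℝ → EE N} (hF : IsMCF (n := n) F)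
    {g : M → ℝ → ℝ} (hg : CST g) (p : M) :
    ContinuousOn (fun z : EE n × ℝ => g ((chartAt (EE n) p).symm z.1) z.2 *
      sgm (loc (n := n) F p z.2) z.1) ((chartAt (EE n) p).target ×ˢ Iio 0) := by
  refine ContinuousOn.mul ?_ ((hEB n N M F hF 1 one_pos).2.2.2 p).2.2
  have hmap : ContinuousOn (fun z : EE n × ℝ => (((chartAt (EE n) p).symm z.1, z.2) : M × ℝ))
      ((chartAt (EE n) p).target ×ˢ Iio (0 : ℝ)) := by
    refine ContinuousOn.prodMk ?_ continuousOn_snd
    exact (chartAt (EE n) p).continuousOn_symm.comp continuousOn_fst fun z hz => hz.1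
  have hmt : MapsTo (fun z : EE n × ℝ => (((chartAt (EE n) p).symm z.1, z.2) : M × ℝ))
      ((chartAt (EE n) p).target ×ˢ Iio (0 : ℝ)) (univ ×ˢ Iio 0) := fun z hz => ⟨mem_univ _, hz.2⟩
  exact hg.comp hmap hmt

theorem cst_slice {g : M → ℝ → ℝ} (hg : CST g) {t : ℝ} (ht : t < 0) :
    Continuous (fun q => g q t) :=
  hg.comp_continuous (f := fun q : M => (q, t)) (by fun_prop) (fun q => ⟨mem_univ _, ht⟩)

/-- the cut off function in the chart -/
theorem chi_facts {c : ℕ → M} {χ : ℕ → M → ℝ} (hP : PU n c χ) (i : ℕ) :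
    IsCompact ((chartAt (EE n) (c i)) '' tsupport (χ i)) ∧
    (chartAt (EE n) (c i)) '' tsupport (χ i) ⊆ (chartAt (EE n) (c i)).target ∧
    ContinuousOn (fun y => χ i ((chartAt (EE n) (c i)).symm y)) (chartAt (EE n) (c i)).target ∧
    ∀ y ∈ (chartAt (EE n) (c i)).target, y ∉ (chartAt (EE n) (c i)) '' tsupport (χ i) →
      χ i ((chartAt (EE n) (c i)).symm y) = 0 := by
  refine ⟨(hP.cpt i).image_of_continuousOn
    ((chartAt (EE n) (c i)).continuousOn.mono (hP.sub i)), ?_, ?_, ?_⟩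
  · rintro _ ⟨q, hq, rfl⟩
    exact (chartAt (EE n) (c i)).map_source (hP.sub i hq)
  · exact (hP.smooth i).continuous.comp_continuousOn (chartAt (EE n) (c i)).continuousOn_symm
  · intro y hy hyK
    by_contra hne
    apply hyK
    refine ⟨(chartAt (EE n) (c i)).symm y, subset_tsupport _ hne, ?_⟩
    exact (chartAt (EE n) (c i)).right_inv hy

/-- the integral of a chart -/
noncomputable def Ii (F : M → ℝ → EE N) (c : ℕ → M) (χ : ℕ → M → ℝ) (i : ℕ) (g : M → ℝ → ℝ)
    (r : ℝ) : ℝ :=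
  ∫ y in (chartAt (EE n) (c i)).target, χ i ((chartAt (EE n) (c i)).symm y) *
    (g ((chartAt (EE n) (c i)).symm y) r * sgm (loc (n := n) F (c i) r) y)

theorem Ii_cont [IsManifold (𝓡 n) ∞ M] (hEB : StEB) (hFU : StFU) {F : M → ℝ → EE N}
    (hF : IsMCF (n := n) F) {c : ℕ → M} {χ : ℕ → M → ℝ} (hP : PU n c χ) {g : M → ℝ → ℝ}
    (hg : CST g) (i : ℕ) : ContinuousOn (Ii (n := n) F c χ i g) (Iio 0) := by
  intro t ht
  have ht' : t < 0 := ht
  obtain ⟨k1, k2, k3, k4⟩ := chi_facts hP i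
  have h1 := (hFU n (chartAt (EE n) (c i)).target _ (chartAt (EE n) (c i)).open_target k1 k2
    (fun y => χ i ((chartAt (EE n) (c i)).symm y)) k3 k4 (t - 1) (t / 2) (by linarith)
    (fun y r => g ((chartAt (EE n) (c i)).symm y) r * sgm (loc (n := n) F (c i) r) y)
    ((cst_chart hEB hF hg (c i)).mono (prod_mono le_rfl (fun r hr => by
      have := hr.2
      simp only [mem_Iio]
      linarith)))).2.1
  have h2 : Icc (t - 1) (t / 2) ∈ 𝓝 t := Icc_mem_nhds (by linarith) (by linarith)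
  exact (h1.continuousAt h2).continuousWithinAt

theorem Ii_deriv [IsManifold (𝓡 n) ∞ M] (hEB : StEB) (hFU : StFU) {F : M → ℝ → EE N}
    (hF : IsMCF (n := n) F) {c : ℕ → M} {χ : ℕ → M → ℝ} (hP : PU n c χ) {g b : M → ℝ → ℝ}
    (hg : CST g) (hb : CST b) (i : ℕ)
    (hd : ∀ y ∈ (chartAt (EE n) (c i)).target, ∀ r < 0,
      HasDerivAt (fun r => g ((chartAt (EE n) (c i)).symm y) r * sgm (loc (n := n) F (c i) r) y)
        (b ((chartAt (EE n) (c i)).symm y) r * sgm (loc (n := n) F (c i) r) y) r)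
    {t : ℝ} (ht : t < 0) :
    HasDerivAt (Ii (n := n) F c χ i g) (Ii (n := n) F c χ i b t) t := by
  obtain ⟨k1, k2, k3, k4⟩ := chi_facts hP i
  have hmono : ∀ t₀ t₁ : ℝ, t₁ < 0 → (chartAt (EE n) (c i)).target ×ˢ Icc t₀ t₁ ⊆
      (chartAt (EE n) (c i)).target ×ˢ Iio (0 : ℝ) := fun t₀ t₁ h =>
    prod_mono le_rfl (fun r hr => lt_of_le_of_lt hr.2 h)
  have key : ∀ t₀ t₁ : ℝ, t₀ ≤ t₁ → t₁ < 0 →
      Ii (n := n) F c χ i g t₁ - Ii (n := n) F c χ i g t₀ =
        ∫ r in t₀..t₁, Ii (n := n) F c χ i b r := by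
    intro t₀ t₁ h01 h1
    exact (hFU n (chartAt (EE n) (c i)).target _ (chartAt (EE n) (c i)).open_target k1 k2
      (fun y => χ i ((chartAt (EE n) (c i)).symm y)) k3 k4 t₀ t₁ h01
      (fun y r => b ((chartAt (EE n) (c i)).symm y) r * sgm (loc (n := n) F (c i) r) y)
      ((cst_chart hEB hF hb (c i)).mono (hmono t₀ t₁ h1))).2.2
      (fun y r => g ((chartAt (EE n) (c i)).symm y) r * sgm (loc (n := n) F (c i) r) y)
      (fun y hy r hr => hd y hy r (lt_of_le_of_lt hr.2 h1))
      ((cst_chart hEB hF hg (c i)).mono (hmono t₀ t₁ h1))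
  have hA : ∀ r < 0, Ii (n := n) F c χ i g r = Ii (n := n) F c χ i g t +
      ∫ x in t..r, Ii (n := n) F c χ i b x := by
    intro r hr
    rcases le_total t r with h | h
    · have := key t r h hr
      linarith
    · have := key r t h ht
      rw [intervalIntegral.integral_symm r t]
      linarith
  have hc := Ii_cont hEB hFU hF hP hb i
  have h1 : HasDerivAt (fun r => ∫ x in t..r, Ii (n := n) F c χ i b x)
      (Ii (n := n) F c χ i b t) t := by
    refine intervalIntegral.integral_hasDerivAt_right (by simp) ?_ ?_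
    · exact ContinuousOn.stronglyMeasurableAtFilter isOpen_Iio hc t ht
    · exact hc.continuousAt (Iio_mem_nhds ht)
  refine (h1.const_add (Ii (n := n) F c χ i g t)).congr_of_eventuallyEq ?_
  filter_upwards [Iio_mem_nhds ht] with r hr
  exact hA r hr

/-- Module TD. -/
theorem hTD (hMU : StMU) (hFU : StFU) (hV1 : StV1) (hEB : StEB) (hI2 : StI2) (hI3 : StI3)
    (hI4 : StI4) : StTD := by
  intro n N M _ _ _ _ _ _ _ F c χ hS
  have hF := hS.mcf
  have hP := hS.pu
  obtain ⟨s, -, hmu⟩ := hMU n N M F c χ hS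
  have hint : ∀ g : M → ℝ → ℝ, CST g → ∀ r < 0,
      ∫ q, g q r ∂muM n F c χ r = ∑ i ∈ s, Ii (n := n) F c χ i g r := by
    intro g hg r hr
    exact ((hmu r hr).2.2 (fun q => g q r) (cst_slice hg hr)).2
  refine ⟨fun g hg => ?_, fun g g' hg hg' hd t ht => ?_⟩
  · have h1 : ContinuousOn (fun r => ∑ i ∈ s, Ii (n := n) F c χ i g r) (Iio 0) :=
      continuousOn_finsetSum _ fun i _ => Ii_cont hEB hFU hF hP hg i
    exact h1.congr fun r hr => hint g hg r hr
  · have hH : ContinuousOn (fun z : M × ℝ => HH (n := n) F z.1 z.2) (univ ×ˢ Iio 0) :=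
      (hI4 n N M F hF).2.1
    have hb : CST (fun (q : M) (t : ℝ) => g' q t - ‖HH (n := n) F q t‖ ^ 2 * g q t) :=
      ContinuousOn.sub hg' ((hH.norm.pow 2).mul hg)
    have hchart : ∀ p : M, ∀ y ∈ (chartAt (EE n) p).target, ∀ r < 0,
        HasDerivAt (fun r => g ((chartAt (EE n) p).symm y) r * sgm (loc (n := n) F p r) y)
          ((g' ((chartAt (EE n) p).symm y) r - ‖HH (n := n) F ((chartAt (EE n) p).symm y) r‖ ^ 2 *
            g ((chartAt (EE n) p).symm y) r) * sgm (loc (n := n) F p r) y) r := by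
      intro p
      set f : EE n × ℝ → EE N := fun z => F ((chartAt (EE n) p).symm z.1) z.2 with hf
      have hopen : IsOpen ((chartAt (EE n) p).target ×ˢ Iio (0 : ℝ)) :=
        (chartAt (EE n) p).open_target.prod isOpen_Iio
      have hfc : ∀ z ∈ (chartAt (EE n) p).target ×ˢ Iio (0 : ℝ), ContDiffAt ℝ ∞ f z :=
        fun z hz => (hI2 n N M F hF p z hz).contDiffAt (hopen.mem_nhds hz)
      have hpt : ∀ z ∈ (chartAt (EE n) p).target ×ˢ Iio (0 : ℝ),
          LI (fun y => f (y, z.2)) z.1 ∧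
          HH (n := n) F ((chartAt (EE n) p).symm z.1) z.2 = mcv (fun y => f (y, z.2)) z.1 := by
        intro z hz
        have h := hI3 n N M F hF p ((chartAt (EE n) p).symm z.1) z.2 hz.2
          ((chartAt (EE n) p).map_target hz.1)
        rw [(chartAt (EE n) p).right_inv hz.1] at h
        exact ⟨h.1, h.2.1⟩
      have hjt : ∀ z ∈ (chartAt (EE n) p).target ×ˢ Iio (0 : ℝ),
          jt f z = mcv (fun y => f (y, z.2)) z.1 := by
        intro z hz
        rw [← (hpt z hz).2]
        have h1 : HasFDerivAt f (fderiv ℝ f z) (z.1, z.2) :=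
          ((hfc z hz).differentiableAt (by simp)).hasFDerivAt
        have h2 : HasDerivAt (fun r : ℝ => (z.1, r)) ((0 : EE n), (1 : ℝ)) z.2 :=
          (hasDerivAt_const z.2 z.1).prodMk (hasDerivAt_id z.2)
        have h3 : HasDerivAt (fun r : ℝ => f (z.1, r)) (fderiv ℝ f z (0, 1)) z.2 :=
          h1.comp_hasDerivAt z.2 h2
        exact h3.unique (hF.flow ((chartAt (EE n) p).symm z.1) z.2 hz.2)
      intro y hy r hr
      have hz : ((y, r) : EE n × ℝ) ∈ (chartAt (EE n) p).target ×ˢ Iio (0 : ℝ) := ⟨hy, hr⟩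
      have hsg : HasDerivAt (fun r => sgm (loc (n := n) F p r) y)
          (-‖HH (n := n) F ((chartAt (EE n) p).symm y) r‖ ^ 2 * sgm (loc (n := n) F p r) y) r := by
        obtain ⟨-, -, h3⟩ := hV1 n N f (y, r) (hfc _ hz) (hpt _ hz).1
        have h4 := h3 (by
          filter_upwards [hopen.mem_nhds hz] with z' hz'
          exact hjt z' hz')
        rw [(hpt _ hz).2]
        exact h4
      refine ((hd ((chartAt (EE n) p).symm y) r hr).mul hsg).congr_deriv ?_
      ring
    have hsum : HasDerivAt (fun r => ∑ i ∈ s, Ii (n := n) F c χ i g r)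
        (∑ i ∈ s, Ii (n := n) F c χ i
          (fun q t => g' q t - ‖HH (n := n) F q t‖ ^ 2 * g q t) t) t :=
      HasDerivAt.fun_sum fun i _ => Ii_deriv hEB hFU hF hP hg hb i (hchart (c i)) ht
    rw [hint _ hb t ht]
    refine hsum.congr_of_eventuallyEq ?_
    filter_upwards [Iio_mem_nhds ht] with r hr
    exact hint g hg r hr

end Pool.Agent.Helper80.CL
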