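import Pool.Agent.Helper26.CL.St

/-!
# Project CM (MP_65faa7), module Rf: reflections of the box
-/

set_option autoImplicit false

open scoped BigOperators ENNReal Topology
open Pool.LE Pool.NL Filter

namespace Pool.CN

namespace RfM

variable {d : ℕ}

theorem rfl_same (i : Fin d) (a : ℤ) (x : Zd d) : rfl' i a x i = a - x i := by
  unfold rfl'
  rw [Function.update_self]

theorem rfl_ne {i j : Fin d} (h : j ≠ i) (a : ℤ) (x : Zd d) : rfl' i a x j = x j := by
  unfold rfl'
  rw [Function.update_of_ne h]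

theorem rfl_invol (i : Fin d) (a : ℤ) : Function.Involutive (rfl' (d := d) i a) := by
  intro x
  funext j
  by_cases h : j = i
  · subst h
    rw [rfl_same, rfl_same]
    ring
  · rw [rfl_ne h, rfl_ne h]

theorem rfl_add (i j : Fin d) (a c : ℤ) (x : Zd d) :
    rfl' i a (x + Pi.single j c) = rfl' i a x + Pi.single j (if j = i then -c else c) := by
  funext l
  by_cases hl : l = i
  · subst hl
    rw [rfl_same, Pi.add_apply, Pi.add_apply, rfl_same]
    by_cases hj : j = l
    · subst hj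
      rw [if_pos rfl, Pi.single_eq_same, Pi.single_eq_same]
      ring
    · rw [if_neg hj, Pi.single_eq_of_ne (Ne.symm hj), add_zero, add_zero]
  · rw [rfl_ne hl, Pi.add_apply, Pi.add_apply, rfl_ne hl]
    by_cases hj : j = l
    · subst hj
      rw [if_neg hl, Pi.single_eq_same]
    · rw [Pi.single_eq_of_ne (Ne.symm hj), Pi.single_eq_of_ne (Ne.symm hj)]

theorem sub_eq (j : Fin d) (x : Zd d) :
    x - Pi.single j (1 : ℤ) = x + Pi.single j (-1 : ℤ) := by
  rw [Pi.single_neg, sub_eq_add_neg]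

theorem nb_mp (hBox : StBox) (i : Fin d) (a : ℤ) (x b : Zd d) (h : b ∈ nb x) :
    rfl' i a b ∈ nb (rfl' i a x) := by
  obtain ⟨-, -, hnb, -⟩ := hBox d
  rw [hnb] at h ⊢
  obtain ⟨j, rfl | rfl⟩ := h
  · refine ⟨j, ?_⟩
    rw [rfl_add]
    by_cases hj : j = i
    · right
      rw [if_pos hj, sub_eq]
    · left
      rw [if_neg hj]
  · refine ⟨j, ?_⟩
    rw [sub_eq, rfl_add]
    by_cases hj : j = i
    · left
      rw [if_pos hj, neg_neg]
    · right
      rw [if_neg hj, sub_eq]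

theorem nb_iff (hBox : StBox) (i : Fin d) (a : ℤ) (x b : Zd d) :
    rfl' i a b ∈ nb (rfl' i a x) ↔ b ∈ nb x := by
  refine ⟨fun h => ?_, nb_mp hBox i a x b⟩
  have h1 := nb_mp hBox i a _ _ h
  rwa [rfl_invol i a, rfl_invol i a] at h1

theorem bn_mp (hBn : StBn) (n : ℕ) (i : Fin d) (x : Zd d) (h : x ∈ Bn d n) :
    rfl' i (n - 1) x ∈ Bn d n := by
  obtain ⟨-, -, -, hB, -⟩ := hBn d n
  rw [hB] at h ⊢
  intro j
  by_cases hj : j = i
  · subst hj
    rw [rfl_same]
    have := h j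
    constructor <;> omega
  · rw [rfl_ne hj]
    exact h j

theorem bn_iff (hBn : StBn) (n : ℕ) (i : Fin d) (x : Zd d) :
    x ∈ Bn d n ↔ rfl' i (n - 1) x ∈ Bn d n := by
  refine ⟨bn_mp hBn n i x, fun h => ?_⟩
  have h1 := bn_mp hBn n i _ h
  rwa [rfl_invol i _] at h1

theorem mpE_ES (hBox : StBox) (hBn : StBn) (n : ℕ) (i : Fin d) :
    mpE (rfl_invol (d := d) i (n - 1)).toPerm (ES (Bn d n)) = ES (Bn d n) := by
  obtain ⟨-, -, -, -, -, -, -, hES, -⟩ := hBox d
  set φ := (rfl_invol (d := d) i (n - 1)).toPerm with hφ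
  have happ : ∀ x, φ x = rfl' i (n - 1) x := fun x => rfl
  have key : ∀ a b : Zd d, s(φ a, φ b) ∈ ES (Bn d n) ↔ s(a, b) ∈ ES (Bn d n) := by
    intro a b
    rw [hES, hES, happ, happ, ← bn_iff hBn, ← bn_iff hBn, nb_iff hBox]
  ext e
  induction e using Sym2.ind with
  | _ a b =>
    unfold mpE
    rw [Finset.mem_map]
    constructor
    · rintro ⟨e', he', h⟩
      induction e' using Sym2.ind with
      | _ a' b' =>
        have h2 : s(φ a', φ b') = s(a, b) := h
        rw [← h2, key]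
        exact he'
    · intro h
      refine ⟨s(φ a, φ b), (key a b).2 h, ?_⟩
      show s(φ (φ a), φ (φ b)) = s(a, b)
      rw [happ, happ, happ, happ, rfl_invol i _, rfl_invol i _]

end RfM

open RfM

theorem hRf (hMp : StMp) (hBox : StBox) (hBn : StBn) : StRf := by
  intro d n p i _ _
  refine ⟨fun x => bn_iff hBn n i x, fun x _ => ?_⟩
  obtain ⟨-, -, hcp⟩ := hMp (Zd d) (rfl_invol (d := d) i (n - 1)).toPerm (ES (Bn d n)) p
  rw [mpE_ES hBox hBn n i] at hcp
  unfold hh
  symm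
  refine Finset.sum_bij' (fun y _ => rfl' i (n - 1) y) (fun y _ => rfl' i (n - 1) y)
    (fun y hy => bn_mp hBn n i y hy) (fun y hy => bn_mp hBn n i y hy)
    (fun y _ => rfl_invol i _ y) (fun y _ => rfl_invol i _ y) (fun y _ => ?_)
  exact (hcp x y).symm

end Pool.CN
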